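import Pool.Agent.Helper865.Astro.Final

set_option autoImplicit false

open MeasureTheory Set
open scoped NNReal ENNReal

namespace Pool.Agent.Results.MP_98cbc5_pr.Order

open Pool.Agent.Helper865.Astro

/-- The symmetric rendezvous value of the astronaut problem has order `ρ ^ 2 / r`: between
`ρ ^ 2 / (4 r)` and `15 ρ ^ 2 / r` for `r ≤ ρ / 4`; asymptotically between `(1/2 - ε) ρ ^ 2 / r`
and `(4 π + ε) ρ ^ 2 / r`; for every `r < π ρ` there is a strategy with expected meeting time at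
most `4 π ρ ^ 2 / r + 2 π ρ`. -/
theorem result :
    (∀ (ρ r : ℝ) (N : E3), 0 < r → r ≤ ρ / 4 → ‖N‖ = ρ →
      ENNReal.ofReal (ρ ^ 2 / (4 * r)) ≤ Rs ρ r N ∧ Rs ρ r N ≤ ENNReal.ofReal (15 * (ρ ^ 2 / r))) ∧
    (∀ ε : ℝ, 0 < ε → ∃ δ : ℝ, 0 < δ ∧ ∀ (ρ r : ℝ) (N : E3), 0 < r → r ≤ δ * ρ → ‖N‖ = ρ →
      ENNReal.ofReal ((1 / 2 - ε) * (ρ ^ 2 / r)) ≤ Rs ρ r N ∧
      Rs ρ r N ≤ ENNReal.ofReal ((4 * Real.pi + ε) * (ρ ^ 2 / r))) ∧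
    (∀ (ρ r : ℝ) (N : E3), 0 < r → r < Real.pi * ρ → ‖N‖ = ρ →
      ∃ μ : Measure (Route ρ N), IsProbabilityMeasure μ ∧
        expMeet haarO3 ρ r N μ ≤ ENNReal.ofReal (4 * Real.pi * ρ ^ 2 / r + 2 * Real.pi * ρ)) :=
  Pool.Agent.Helper865.Astro.order

end Pool.Agent.Results.MP_98cbc5_pr.Order
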